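import Pool.Agent.MP_bd94e8_al.H89.Spec

/-! The density lemma. -/

set_option autoImplicit false
set_option linter.unusedSectionVars false

namespace Pool.Agent.MP_bd94e8_al.H89

open Module Function

namespace DlA

/-! ### Homogeneous endomorphisms generate a nilpotent ideal -/

section Nil
variable {F Y G : Type} [Field F] [AddCommGroup Y] [Module F Y] [Group G]

/-- The ascending series of vectors killed by the words of length `n`. -/
def KK (W : G → Set (End F Y)) : ℕ → Submodule F Y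
  | 0 => ⊥
  | n + 1 => ⨅ s, ⨅ x ∈ W s, (KK W n).comap x

theorem mem_KK {W : G → Set (End F Y)} {n : ℕ} {z : Y} :
    z ∈ KK W (n + 1) ↔ ∀ s, ∀ x ∈ W s, x z ∈ KK W n := by
  simp [KK, Submodule.mem_iInf]

theorem KK_le (W : G → Set (End F Y)) : ∀ n, KK W n ≤ KK W (n + 1)
  | 0 => bot_le
  | n + 1 => fun _ hz => mem_KK.2 fun s x hx => KK_le W n (mem_KK.1 hz s x hx)

theorem KK_graded {W : G → Set (End F Y)} {π : G → End F Y}
    (hW : ∀ s, ∀ x ∈ W s, ∀ g, x * π g = π (s * g) * x) :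
    ∀ n, ∀ z ∈ KK W n, ∀ g, π g z ∈ KK W n
  | 0, z, hz, g => by
    rw [KK, Submodule.mem_bot] at hz ⊢
    rw [hz, map_zero]
  | n + 1, z, hz, g => mem_KK.2 fun s x hx => by
    rw [← End.mul_apply, hW s x hx, End.mul_apply]
    exact KK_graded hW n _ (mem_KK.1 hz s x hx) _

theorem KK_top [FiniteDimensional F Y] {W : G → Set (End F Y)} {π : G → End F Y} {S : Finset G}
    (hS : ∀ g, g ∉ S → π g = 0) (hsum : ∑ g ∈ S, π g = 1) (hid : ∀ g, π g * π g = π g)
    (hW : ∀ s, ∀ x ∈ W s, ∀ g, x * π g = π (s * g) * x)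
    (hmul : ∀ s t, ∀ x ∈ W s, ∀ y ∈ W t, x * y ∈ W (s * t)) {r : ℕ}
    (hr : ∀ l : List (End F Y), (∀ x ∈ l, x ∈ W 1) → r ≤ l.length → l.prod = 0) :
    ∃ N, KK W N = ⊤ := by
  classical
  obtain ⟨N, hN⟩ := monotone_stabilizes_iff_noetherian.2 (inferInstance : IsNoetherian F Y)
    ⟨KK W, monotone_nat_of_le_succ (KK_le W)⟩
  have hN' : KK W N = KK W (N + 1) := hN (N + 1) (Nat.le_succ N)
  refine ⟨N, by_contra fun hne => ?_⟩
  let X : Set (G × Y) := {a | π a.1 a.2 = a.2 ∧ a.2 ∉ KK W N}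
  let R : G × Y → Finset G := fun a =>
    S.filter fun g' => ∃ t, ∃ x ∈ W t, g' = t * a.1 ∧ x a.2 ∉ KK W N
  have hX : X.Nonempty := by
    obtain ⟨z, hz⟩ : ∃ z, z ∉ KK W N := by
      by_contra h
      push Not at h
      exact hne (eq_top_iff.2 fun z _ => h z)
    by_contra h
    apply hz
    have e : z = ∑ g ∈ S, π g z := by rw [← LinearMap.sum_apply, hsum, End.one_apply]
    rw [e]
    refine sum_mem fun g _ => by_contra fun hg => h ⟨(g, π g z), ?_, hg⟩
    exact LinearMap.congr_fun (hid g) z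
  have step : ∀ a ∈ X, ∀ t, ∀ x ∈ W t, x a.2 ∉ KK W N →
      (t * a.1, x a.2) ∈ X ∧ t * a.1 ∈ R a ∧ R (t * a.1, x a.2) ⊆ R a := by
    intro a ha t x hx hxa
    have h1 : π (t * a.1) (x a.2) = x a.2 := by
      rw [← End.mul_apply, ← hW t x hx, End.mul_apply, ha.1]
    refine ⟨⟨h1, hxa⟩, Finset.mem_filter.2 ⟨by_contra fun h => hxa ?_, t, x, hx, rfl, hxa⟩, ?_⟩
    · rw [← h1, hS _ h]
      exact zero_mem _
    · intro g' hg'
      obtain ⟨h2, t', x', hx', e, h3⟩ := Finset.mem_filter.1 hg'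
      exact Finset.mem_filter.2 ⟨h2, t' * t, x' * x, hmul _ _ _ hx' _ hx,
        by rw [e, mul_assoc], h3⟩
  obtain ⟨a, ha, hmin⟩ := (measure fun a => (R a).card).wf.has_min X hX
  have hmin' : ∀ b ∈ X, R b ⊆ R a → R b = R a := fun b hb h =>
    Finset.eq_of_subset_of_card_le h (not_lt.1 (hmin b hb))
  obtain ⟨t, x, hx, hxa⟩ : ∃ t, ∃ x ∈ W t, x a.2 ∉ KK W N := by
    by_contra h
    push Not at h
    exact ha.2 (hN' ▸ mem_KK.2 h)
  obtain ⟨h1, h2, h3⟩ := step a ha t x hx hxa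
  have key : ∀ n : ℕ, ∃ l : List (End F Y), (∀ y ∈ l, y ∈ W 1) ∧ l.length = n ∧
      (t * a.1, l.prod (x a.2)) ∈ X ∧ R (t * a.1, l.prod (x a.2)) = R a := by
    intro n
    induction n with
    | zero => exact ⟨[], by simp, rfl, h1, hmin' _ h1 h3⟩
    | succ n ih =>
      obtain ⟨l, hl, hlen, hlX, hlR⟩ := ih
      obtain ⟨_, t', y, hy, e, hy'⟩ := Finset.mem_filter.1 (hlR ▸ h2 :)
      have ht' : t' = 1 := by
        have e' : (1 : G) * (t * a.1) = t' * (t * a.1) := by rw [one_mul]; exact e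
        exact (mul_right_cancel e').symm
      subst ht'
      obtain ⟨g1, _, g3⟩ := step _ hlX 1 y hy hy'
      simp only [one_mul] at g1 g3
      refine ⟨y :: l, ?_, by rw [List.length_cons, hlen], g1, hmin' _ g1 (hlR ▸ g3)⟩
      intro y' hy'
      rcases List.mem_cons.1 hy' with rfl | hy'
      · exact hy
      · exact hl y' hy'
  obtain ⟨l, hl, hlen, hlX, _⟩ := key r
  apply hlX.2
  rw [hr l hl hlen.ge]
  exact zero_mem _

theorem nil_of_KK {W : G → Set (End F Y)} {N : ℕ} (hN : KK W N = ⊤) (T : Finset G)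
    (x : G → End F Y) (hx : ∀ s ∈ T, x s ∈ W s) : (∑ s ∈ T, x s) ^ N = 0 := by
  have : ∀ n, ∀ z ∈ KK W n, ((∑ s ∈ T, x s) ^ n) z = 0 := by
    intro n
    induction n with
    | zero => intro z hz; simpa [KK] using hz
    | succ n ih =>
      intro z hz
      rw [pow_succ, End.mul_apply]
      refine ih _ ?_
      rw [LinearMap.sum_apply]
      exact sum_mem fun s hs => mem_KK.1 hz s _ (hx s hs)
  exact LinearMap.ext fun z => this N z (hN ▸ Submodule.mem_top)

theorem sum_shift {X : Type} [AddCommMonoid X] {S T : Finset G} {φ : G → X} (c : G)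
    (hS : ∀ g, g ∉ S → φ g = 0) (hT : ∀ g ∈ S, g * c⁻¹ ∈ T) :
    ∑ h ∈ T, φ (h * c) = ∑ g ∈ S, φ g := by
  classical
  rw [← Finset.sum_image (s := T) (g := fun h => h * c) (f := φ)
    fun _ _ _ _ h => mul_right_cancel h]
  refine (Finset.sum_subset (fun g hg => ?_) fun g _ hg => hS g hg).symm
  exact Finset.mem_image.2 ⟨_, hT g hg, by simp⟩

end Nil

/-! ### Graded objects -/

section Gr
variable {k F : Type} [Field k] [Field F] [Algebra k F] {Pt ι Ω : Type} [Fintype Pt]
  [DecidableEq Pt] [Fintype Ω] {P : Prob k F Pt ι Ω} {G : Type} [Group G] {deg : Pt → G}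
  {V V' V'' : Type} [AddCommGroup V] [Module F V] [AddCommGroup V'] [Module F V']
  [AddCommGroup V''] [Module F V'']

theorem hom_comp {M : Obj P V} {M' : Obj P V'} {M'' : Obj P V''} {g : V →ₗ[F] V'}
    {g' : V' →ₗ[F] V''} (h' : M'.IsHom M'' g') (h : M.IsHom M' g) : M.IsHom M'' (g' ∘ₗ g) :=
  ⟨fun o => by rw [LinearMap.comp_assoc, h.1, ← LinearMap.comp_assoc, h'.1, LinearMap.comp_assoc],
    fun u hu => h'.2 _ (h.2 u hu)⟩

/-- The ring of endomorphisms of an object. -/
def ER (M : Obj P V) : Subring (End F V) where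
  carrier := {x | M.IsHom M x}
  mul_mem' hx hy := hom_comp hx hy
  one_mem' := ⟨fun _ => rfl, fun _ hu => hu⟩
  add_mem' := fun {x y} hx hy => ⟨fun o => by
    rw [LinearMap.add_comp, LinearMap.comp_add, hx.1, hy.1],
    fun u hu => M.U.add_mem (hx.2 u hu) (hy.2 u hu)⟩
  zero_mem' := ⟨fun _ => by simp, fun _ _ => M.U.zero_mem⟩
  neg_mem' := fun {x} hx => ⟨fun o => by rw [LinearMap.neg_comp, LinearMap.comp_neg, hx.1],
    fun u hu => M.U.neg_mem (hx.2 u hu)⟩

/-- The ring of graded endomorphisms. -/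
def GR {M : Obj P V} (Γ : Grd M deg) : Subring (End F V) where
  carrier := {x | M.IsHom M x ∧ ∀ g, x * Γ.π g = Γ.π g * x}
  mul_mem' := fun {x y} hx hy => ⟨hom_comp hx.1 hy.1, fun g => by
    rw [mul_assoc, hy.2, ← mul_assoc, hx.2, mul_assoc]⟩
  one_mem' := ⟨(ER M).one_mem, fun _ => by rw [one_mul, mul_one]⟩
  add_mem' := fun {x y} hx hy => ⟨(ER M).add_mem hx.1 hy.1, fun g => by
    rw [add_mul, mul_add, hx.2, hy.2]⟩
  zero_mem' := ⟨(ER M).zero_mem, fun _ => by rw [zero_mul, mul_zero]⟩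
  neg_mem' := fun {x} hx => ⟨(ER M).neg_mem hx.1, fun g => by rw [neg_mul, mul_neg, hx.2]⟩

theorem scalar_mem {M : Obj P V} (Γ : Grd M deg) (c : k) :
    algebraMap k F c • (1 : End F V) ∈ GR Γ := by
  refine ⟨⟨fun o => ?_, fun u hu => ?_⟩, fun g => ?_⟩
  · ext x; simp
  · have := M.stab _ (P.B.algebraMap_mem c) u hu
    convert this using 1
    ext q
    simp [act, Matrix.algebraMap_matrix_apply]
  · ext x; simp

theorem pi_sum {M : Obj P V} (Γ : Grd M deg) : ∑ g ∈ Γ.s, Γ.π g = (1 : End F V) := Γ.sum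

theorem pi_orth {M : Obj P V} (Γ : Grd M deg) {g g' : G} (h : g ≠ g') :
    (Γ.π g : End F V) * Γ.π g' = 0 := Γ.orth g g' h

theorem pi_idem {M : Obj P V} (Γ : Grd M deg) (g : G) : (Γ.π g : End F V) * Γ.π g = Γ.π g := by
  by_cases hg : g ∈ Γ.s
  · conv_rhs => rw [← mul_one (Γ.π g), ← pi_sum Γ, Finset.mul_sum]
    rw [Finset.sum_eq_single_of_mem g hg fun g' _ h => pi_orth Γ h.symm]
  · rw [Γ.supp g hg, mul_zero]

/-- The homogeneous component of an endomorphism. -/
def cmp {M : Obj P V} (Γ : Grd M deg) (x : End F V) (s : G) : End F V :=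
  ∑ g ∈ Γ.s, Γ.π (s * g) * x * Γ.π g

theorem cmp_hom {M : Obj P V} (Γ : Grd M deg) {x : End F V} (hx : M.IsHom M x) (s : G) :
    M.IsHom M (cmp Γ x s) := by
  classical
  refine ⟨fun o => ?_, fun u hu => ?_⟩
  · change cmp Γ x s * M.ε o = M.ε o * cmp Γ x s
    rw [cmp, Finset.sum_mul, Finset.mul_sum]
    refine Finset.sum_congr rfl fun g _ => ?_
    have h1 : ∀ g, (Γ.π g : End F V) * M.ε o = M.ε o * Γ.π g := fun g => Γ.comm g o
    have h2 : x * M.ε o = M.ε o * x := hx.1 o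
    rw [mul_assoc, h1, ← mul_assoc, mul_assoc _ x, h2, ← mul_assoc, h1, mul_assoc, mul_assoc,
      mul_assoc]
  · let T : Finset G := (Γ.s ×ˢ (Finset.univ : Finset Pt)).image fun a => a.1 * (deg a.2)⁻¹
    have : (fun p => cmp Γ x s (u p)) =
        ∑ h ∈ T, fun p => Γ.π (s * h * deg p) (x (Γ.π (h * deg p) (u p))) := by
      ext p
      rw [Finset.sum_apply, cmp, LinearMap.sum_apply,
        ← sum_shift (T := T) (φ := fun g => (Γ.π (s * g) * x * Γ.π g) (u p)) (deg p)]
      · simp only [mul_assoc, End.mul_apply]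
      · intro g hg
        rw [Γ.supp g hg, mul_zero, LinearMap.zero_apply]
      · intro g hg
        exact Finset.mem_image.2 ⟨(g, p), Finset.mem_product.2 ⟨hg, Finset.mem_univ _⟩, rfl⟩
    rw [this]
    exact sum_mem fun h _ => Γ.hom _ (hx.2 _ (Γ.hom u hu h)) (s * h)

theorem cmp_shift {M : Obj P V} (Γ : Grd M deg) (x : End F V) (s g : G) :
    cmp Γ x s * Γ.π g = Γ.π (s * g) * cmp Γ x s := by
  rw [cmp, Finset.sum_mul, Finset.mul_sum]
  refine Finset.sum_congr rfl fun g' _ => ?_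
  by_cases h : g' = g
  · rw [h, mul_assoc, pi_idem, ← mul_assoc, ← mul_assoc, pi_idem]
  · rw [mul_assoc, pi_orth Γ h, mul_zero, ← mul_assoc, ← mul_assoc,
      pi_orth Γ fun e => h (mul_left_cancel e).symm, zero_mul, zero_mul]

theorem cmp_sum {M : Obj P V} (Γ : Grd M deg) (x : End F V) {T : Finset G}
    (hT : ∀ g ∈ Γ.s, ∀ g' ∈ Γ.s, g' * g⁻¹ ∈ T) : ∑ s ∈ T, cmp Γ x s = x := by
  simp only [cmp]
  rw [Finset.sum_comm]
  conv_rhs => rw [← mul_one x, ← pi_sum Γ, Finset.mul_sum]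
  refine Finset.sum_congr rfl fun g hg => ?_
  rw [← Finset.sum_mul, ← Finset.sum_mul, sum_shift (φ := Γ.π) g Γ.supp (hT g hg), pi_sum, one_mul]

theorem no_inj (htf : ∀ (s : G) (n : ℕ), 0 < n → s ^ n = 1 → s = 1) {M : Obj P V}
    (Γ : Grd M deg) [Nontrivial V] {y z : End F V} {t : G}
    (hy : ∀ g, y * Γ.π g = Γ.π (t * g) * y) (hz : z * y = 1) : t = 1 := by
  by_contra ht
  obtain ⟨g, hg⟩ : ∃ g, Γ.π g ≠ 0 := by
    by_contra h
    push Not at h
    have := pi_sum Γ
    simp [h] at this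
  have key : ∀ n : ℕ, Γ.π (t ^ n * g) ≠ 0 := by
    intro n
    induction n with
    | zero => simpa using hg
    | succ n ih =>
      intro h
      apply ih
      have := hy (t ^ n * g)
      rw [← mul_assoc, ← pow_succ', h, zero_mul] at this
      rw [← one_mul (Γ.π _), ← hz, mul_assoc, this, mul_zero]
  have hinj : Injective fun n : ℕ => t ^ n * g := by
    refine Function.Injective.of_lt_imp_ne fun m n hmn h => ht (htf t (n - m) (by omega) ?_)
    have h' : t ^ m = t ^ n := mul_right_cancel h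
    have : t ^ m * t ^ (n - m) = t ^ m * 1 := by
      rw [← pow_add, mul_one, h']
      congr 1
      omega
    exact mul_left_cancel this
  exact Set.infinite_of_injective_forall_mem hinj (s := (Γ.s : Set G))
    (fun n => by_contra fun h => key n (Γ.supp _ h)) Γ.s.finite_toSet

/-- An endomorphism whose part of degree one is the identity is invertible. -/
theorem inv_of_cmp [FiniteDimensional k F] (h2 : SKS2)
    (htf : ∀ (s : G) (n : ℕ), 0 < n → s ^ n = 1 → s = 1) [FiniteDimensional F V] {M : Obj P V}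
    (Γ : Grd M deg) (hΓ : Γ.Indec) {x : End F V} (hx : M.IsHom M x) (h1 : cmp Γ x 1 = 1) :
    ∃ c : End F V, M.IsHom M c ∧ x * c = 1 ∧ c * x = 1 := by
  classical
  have := hΓ.1
  obtain ⟨a1, -, a3, r, a4⟩ := h2 k F V (GR Γ) (scalar_mem Γ)
    fun y hy hyy => hΓ.2 y hy.1 hy.2 hyy
  let W : G → Set (End F V) := fun s =>
    {y | M.IsHom M y ∧ (∀ g, y * Γ.π g = Γ.π (s * g) * y) ∧ (s = 1 → IsNilpotent y)}
  have hW1 : ∀ y ∈ W 1, y ∈ GR Γ ∧ IsNilpotent y := fun y hy =>
    ⟨⟨hy.1, fun g => by simpa using hy.2.1 g⟩, hy.2.2 rfl⟩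
  have hmul : ∀ s t, ∀ y ∈ W s, ∀ z ∈ W t, y * z ∈ W (s * t) := by
    intro s t y hy z hz
    have hc : ∀ g, y * z * Γ.π g = Γ.π (s * t * g) * (y * z) := fun g => by
      rw [mul_assoc, hz.2.1, ← mul_assoc, hy.2.1, mul_assoc, mul_assoc]
    refine ⟨hom_comp hy.1 hz.1, hc, fun hst => ?_⟩
    by_cases ht : t = 1
    · have hs : s = 1 := by rwa [ht, mul_one] at hst
      subst hs ht
      exact (a3 y (hW1 y hy).1 z (hW1 z hz).1 (hW1 y hy).2).1
    · rcases a1 (y * z) ⟨hom_comp hy.1 hz.1, fun g => by simpa [hst] using hc g⟩ with h | h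
      · exact h
      · obtain ⟨w, -, hw, -⟩ := h
        exact absurd (no_inj htf Γ hz.2.1 (z := w * y) (by rw [mul_assoc, hw])) ht
  obtain ⟨N, hN⟩ := KK_top (W := W) (π := Γ.π) Γ.supp (pi_sum Γ) (pi_idem Γ)
    (fun s y hy => hy.2.1) hmul (r := r) fun l hl => a4 l fun y hy => hW1 y (hl y hy)
  let T : Finset G := insert 1 ((Γ.s ×ˢ Γ.s).image fun a => a.2 * a.1⁻¹)
  have hs := cmp_sum Γ x (T := T) fun g hg g' hg' => Finset.mem_insert_of_mem
    (Finset.mem_image.2 ⟨(g, g'), Finset.mem_product.2 ⟨hg, hg'⟩, rfl⟩)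
  rw [← Finset.add_sum_erase _ _ (Finset.mem_insert_self _ _), h1] at hs
  have hn := nil_of_KK hN (T.erase 1) (cmp Γ x) fun s hs =>
    ⟨cmp_hom Γ hx s, cmp_shift Γ x s, fun h => absurd h (Finset.mem_erase.1 hs).1⟩
  set n := ∑ s ∈ T.erase 1, cmp Γ x s with hn'
  have hnm : n ∈ ER M := sum_mem fun s _ => cmp_hom Γ hx s
  have hneg : (-n) ^ N = 0 := by rw [neg_pow, hn, mul_zero]
  refine ⟨∑ i ∈ Finset.range N, (-n) ^ i, ?_, ?_, ?_⟩
  · exact (sum_mem fun i _ => pow_mem (neg_mem hnm) i : _ ∈ ER M)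
  · rw [← hs, ← sub_neg_eq_add, mul_neg_geom_sum, hneg, sub_zero]
  · rw [← hs, ← sub_neg_eq_add, geom_sum_mul_neg, hneg, sub_zero]

/-- Transport of a grading. -/
theorem transport {M : Obj P V} (hM : M.Indec) {N : Obj P V'} (Γ : Grd N deg) [Nontrivial V']
    {a : V →ₗ[F] V'} {b : V' →ₗ[F] V} (ha : M.IsHom N a) (hb : N.IsHom M b)
    (hab : a ∘ₗ b = LinearMap.id) : Nonempty (Grd M deg) := by
  have hab' : ∀ y, a (b y) = y := fun y => LinearMap.congr_fun hab y
  have hba : b ∘ₗ a = LinearMap.id := by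
    refine (hM.2 _ (hom_comp hb ha) (LinearMap.ext fun x => ?_)).resolve_left fun h => ?_
    · simp [hab']
    · obtain ⟨y, hy⟩ := exists_ne (0 : V')
      apply hy
      have := LinearMap.congr_fun h (b y)
      simp only [LinearMap.comp_apply, hab', LinearMap.zero_apply] at this
      rw [← hab' y, this, map_zero]
  refine ⟨⟨fun g => b ∘ₗ Γ.π g ∘ₗ a, Γ.s, fun g hg => by simp [Γ.supp g hg], fun g g' h => ?_, ?_,
    fun g o => ?_, fun u hu g => hb.2 _ (Γ.hom _ (ha.2 u hu) g)⟩⟩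
  · ext x
    have := LinearMap.congr_fun (Γ.orth g g' h) (a x)
    simp only [LinearMap.comp_apply, LinearMap.zero_apply] at this
    simp [hab', this]
  · ext x
    have := LinearMap.congr_fun Γ.sum (a x)
    simp only [LinearMap.sum_apply, LinearMap.id_apply] at this
    rw [LinearMap.sum_apply]
    simp only [LinearMap.comp_apply]
    rw [← map_sum, this]
    exact LinearMap.congr_fun hba x
  · ext x
    have e1 := LinearMap.congr_fun (ha.1 o) x
    have e2 := LinearMap.congr_fun (Γ.comm g o) (a x)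
    have e3 := LinearMap.congr_fun (hb.1 o) (Γ.π g (a x))
    simp only [LinearMap.comp_apply] at e1 e2 e3 ⊢
    rw [e1, e2, e3]

/-- The grading of a graded direct summand. -/
def smdG {M : Obj P V} (Γ : Grd M deg) {e : End F V} (he : e ∈ GR Γ) : Grd (M.smd e he.1) deg where
  π g := (Γ.π g).restrict (p := LinearMap.range e) (q := LinearMap.range e) (by
    rintro _ ⟨y, rfl⟩
    exact ⟨Γ.π g y, LinearMap.congr_fun (he.2 g) y⟩)
  s := Γ.s
  supp g hg := LinearMap.ext fun x => Subtype.ext (LinearMap.congr_fun (Γ.supp g hg) x.1)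
  orth g g' h := LinearMap.ext fun x => Subtype.ext (LinearMap.congr_fun (Γ.orth g g' h) x.1)
  sum := LinearMap.ext fun x => Subtype.ext (by
    have := LinearMap.congr_fun Γ.sum x.1
    simpa [LinearMap.sum_apply] using this)
  comm g o := LinearMap.ext fun x => Subtype.ext (LinearMap.congr_fun (Γ.comm g o) x.1)
  hom u hu g := Γ.hom _ hu g

theorem smdG_apply {M : Obj P V} (Γ : Grd M deg) {e : End F V} (he : e ∈ GR Γ) (g : G)
    (y : LinearMap.range e) : (((smdG Γ he).π g y : LinearMap.range e) : V) = Γ.π g y := rfl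

theorem hom_sub {M : Obj P V} {e : End F V} (he : M.IsHom M e) :
    (M.smd e he).IsHom M (LinearMap.range e).subtype := ⟨fun _ => rfl, fun _ hu => hu⟩

theorem hom_rr {M : Obj P V} {e : End F V} (he : M.IsHom M e) :
    M.IsHom (M.smd e he) e.rangeRestrict :=
  ⟨fun o => LinearMap.ext fun x => Subtype.ext (LinearMap.congr_fun (he.1 o) x),
    fun u hu => he.2 u hu⟩

theorem rr_coe {e : End F V} (hee : e * e = e) (y : LinearMap.range e) :
    e.rangeRestrict (y : V) = y := by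
  obtain ⟨_, z, rfl⟩ := y
  exact Subtype.ext (LinearMap.congr_fun hee z)

theorem smdG_indec {M : Obj P V} (Γ : Grd M deg) {e : End F V} (he : e ∈ GR Γ) (h0 : e ≠ 0)
    (hee : e * e = e)
    (hp : ∀ x ∈ GR Γ, x * x = x → e * x = x → x * e = x → x = 0 ∨ x = e) : (smdG Γ he).Indec := by
  refine ⟨Submodule.nontrivial_iff_ne_bot.2 fun h => h0 (LinearMap.range_eq_bot.1 h),
    fun x hx hg hxx => ?_⟩
  have hxx' : ∀ y, x (x y) = x y := fun y => LinearMap.congr_fun hxx y
  have hee' : ∀ y, e (e y) = e y := fun y => LinearMap.congr_fun hee y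
  have hr := rr_coe hee
  refine (hp ((LinearMap.range e).subtype ∘ₗ x ∘ₗ e.rangeRestrict)
    ⟨hom_comp (hom_sub he.1) (hom_comp hx (hom_rr he.1)), fun g => LinearMap.ext fun v => ?c⟩
    (LinearMap.ext fun v => ?d) (LinearMap.ext fun v => ?e) (LinearMap.ext fun v => ?f)).elim
    (fun h => ?a) fun h => ?b
  rotate_left 4
  · refine Or.inl (LinearMap.ext fun y => Subtype.ext ?_)
    have := LinearMap.congr_fun h (y : V)
    simpa [hr] using this
  · refine Or.inr (LinearMap.ext fun y => Subtype.ext ?_)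
    have := LinearMap.congr_fun h (y : V)
    simp only [LinearMap.comp_apply, hr, Submodule.subtype_apply] at this
    rw [this]
    exact congrArg Subtype.val (hr y)
  · have e1 : e.rangeRestrict (Γ.π g v) = (smdG Γ he).π g (e.rangeRestrict v) :=
      Subtype.ext (LinearMap.congr_fun (he.2 g) v)
    change ((x (e.rangeRestrict (Γ.π g v)) : LinearMap.range e) : V) =
      ((smdG Γ he).π g (x (e.rangeRestrict v)) : LinearMap.range e)
    rw [e1]
    exact congrArg Subtype.val (LinearMap.congr_fun (hg g) _)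
  · change ((x (e.rangeRestrict (x (e.rangeRestrict v) : LinearMap.range e)) :
      LinearMap.range e) : V) = (x (e.rangeRestrict v) : LinearMap.range e)
    rw [hr, hxx']
  · exact congrArg Subtype.val (hr (x (e.rangeRestrict v)))
  · change ((x (e.rangeRestrict (e v)) : LinearMap.range e) : V) =
      (x (e.rangeRestrict v) : LinearMap.range e)
    rw [show e.rangeRestrict (e v) = e.rangeRestrict v from Subtype.ext (hee' v)]

/-! ### The pull-up of an object -/

theorem act_def (b : Matrix Pt Pt F) (u : Pt → V) (q : Pt) : act b u q = ∑ p, b q p • u p := rfl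

theorem act_e (i : ι) (u : Pt → V) (q : Pt) [Decidable (P.vt q = i)] :
    act (P.e i) u q = if P.vt q = i then u q else 0 := by
  rw [act, Finset.sum_eq_single q (fun p _ h => by rw [P.e_off i h.symm, zero_smul]) (by simp)]
  split_ifs with h
  · rw [P.e_pos q h, Matrix.one_apply_eq, one_smul]
  · rw [P.e_neg q h, zero_smul]

/-- The pull-up, cut off at a finite set of degrees. -/
def big (hP : Graded P deg) (M : Obj P V) (Θ : Finset G) : Obj P (Θ → V) where
  ε o := (M.ε o).compLeft Θ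
  orth o o' h := LinearMap.ext fun x => funext fun θ => LinearMap.congr_fun (M.orth o o' h) (x θ)
  sum := LinearMap.ext fun x => funext fun θ => by
    have := LinearMap.congr_fun M.sum (x θ)
    simpa [LinearMap.sum_apply] using this
  U :=
    { carrier := {w | ∀ i g, ∃ u ∈ M.U, ∀ p (θ : Θ), P.vt p = i → θ.1 = g * deg p → w p θ = u p}
      add_mem' := fun {w w'} hw hw' i g => by
        obtain ⟨u, hu, h⟩ := hw i g
        obtain ⟨u', hu', h'⟩ := hw' i g
        exact ⟨u + u', M.U.add_mem hu hu', fun p θ h1 h2 => by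
          rw [Pi.add_apply, Pi.add_apply, h p θ h1 h2, h' p θ h1 h2, Pi.add_apply]⟩
      zero_mem' := fun _ _ => ⟨0, M.U.zero_mem, fun _ _ _ _ => rfl⟩
      neg_mem' := fun {w} hw i g => by
        obtain ⟨u, hu, h⟩ := hw i g
        exact ⟨-u, M.U.neg_mem hu, fun p θ h1 h2 => by
          rw [Pi.neg_apply, Pi.neg_apply, h p θ h1 h2, Pi.neg_apply]⟩ }
  peak w hw p := funext fun θ => by
    obtain ⟨u, hu, h⟩ := hw (P.vt p) (θ.1 * (deg p)⁻¹)
    change M.ε (P.pk p) (w p θ) = w p θ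
    rw [h p θ rfl (by simp), M.peak u hu]
  stab b hb w hw j g := by
    classical
    choose uu hU huu using hw
    let S : Finset (ι × G) :=
      (Finset.univ : Finset (Pt × Pt)).image fun a => (P.vt a.1, deg a.1 * (deg a.2)⁻¹)
    refine ⟨∑ a ∈ S, act (mask (fun q p => deg p = a.2 * deg q) b)
      (act (P.e a.1) (uu a.1 (g * a.2⁻¹))), sum_mem fun a _ =>
        M.stab _ (hP b hb a.2) _ (M.stab _ (P.e_mem a.1) _ (hU _ _)), fun q θ _ hθ => ?_⟩
    rw [Finset.sum_apply]
    simp only [act_def b, act_def (mask _ b), act_e, Finset.sum_apply, Pi.smul_apply]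
    rw [Finset.sum_comm]
    refine Finset.sum_congr rfl fun p _ => ?_
    rw [Finset.sum_eq_single_of_mem (P.vt p, deg p * (deg q)⁻¹)
      (Finset.mem_image.2 ⟨(p, q), Finset.mem_univ _, rfl⟩)]
    · rw [mask_pos (s := fun q' p' => deg p' = deg p * (deg q)⁻¹ * deg q') b (by simp),
        if_pos rfl, huu _ (g * (deg p * (deg q)⁻¹)⁻¹) p θ rfl (by simp [hθ, mul_assoc])]
    · rintro ⟨i, s⟩ _ hne
      by_cases hi : P.vt p = i
      · rw [mask_neg (s := fun q' p' => deg p' = s * deg q') b, zero_smul]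
        intro h
        exact hne (by rw [← hi, h, mul_inv_cancel_right])
      · rw [if_neg hi, smul_zero]

theorem mem_big (hP : Graded P deg) (M : Obj P V) (Θ : Finset G) (w : Pt → Θ → V) :
    w ∈ (big hP M Θ).U ↔
      ∀ i g, ∃ u ∈ M.U, ∀ p (θ : Θ), P.vt p = i → θ.1 = g * deg p → w p θ = u p := Iff.rfl

open Classical in
/-- The projection to a degree. -/
noncomputable def prj (F V : Type) [Field F] [AddCommGroup V] [Module F V] (Θ : Finset G) (g : G) :
    End F (Θ → V) :=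
  LinearMap.pi fun θ => if θ.1 = g then LinearMap.proj θ else 0

open Classical in
theorem prj_apply (Θ : Finset G) (g : G) (f : Θ → V) (θ : Θ) :
    prj F V Θ g f θ = if θ.1 = g then f θ else 0 := by
  rw [prj, LinearMap.pi_apply]
  split_ifs <;> rfl

/-- The grading of the pull-up. -/
noncomputable def bigG (hP : Graded P deg) (M : Obj P V) (Θ : Finset G) :
    Grd (big hP M Θ) deg where
  π := prj F V Θ
  s := Θ
  supp g hg := LinearMap.ext fun f => funext fun θ => by
    rw [prj_apply, if_neg fun h : θ.1 = g => hg (h ▸ θ.2)]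
    rfl
  orth g g' h := LinearMap.ext fun f => funext fun θ => by
    rw [LinearMap.comp_apply, prj_apply, prj_apply]
    split_ifs with h1 h2
    · exact absurd (h1.symm.trans h2) h
    · rfl
    · rfl
  sum := LinearMap.ext fun f => funext fun θ => by
    classical
    simp only [LinearMap.sum_apply, Finset.sum_apply, prj_apply, LinearMap.id_apply]
    rw [Finset.sum_eq_single_of_mem θ.1 θ.2 fun g _ h => if_neg h.symm, if_pos rfl]
  comm g o := LinearMap.ext fun f => funext fun θ => by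
    change prj F V Θ g (fun θ => M.ε o (f θ)) θ = M.ε o (prj F V Θ g f θ)
    rw [prj_apply, prj_apply]
    split_ifs
    · rfl
    · rw [map_zero]
  hom w hw g0 i g := by
    by_cases h : g = g0
    · obtain ⟨u, hu, h'⟩ := hw i g
      exact ⟨u, hu, fun p θ h1 h2 => by
        beta_reduce
        rw [prj_apply, if_pos (h ▸ h2), h' p θ h1 h2]⟩
    · refine ⟨0, M.U.zero_mem, fun p θ _ h2 => ?_⟩
      beta_reduce
      rw [prj_apply, if_neg fun h3 => h (mul_right_cancel (h2.symm.trans h3))]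
      rfl

/-- Constant families. -/
def cst (F V : Type) [Field F] [AddCommGroup V] [Module F V] (Θ : Finset G) : V →ₗ[F] Θ → V :=
  LinearMap.pi fun _ => LinearMap.id

/-- The sum of the coordinates. -/
def tot (F V : Type) [Field F] [AddCommGroup V] [Module F V] (Θ : Finset G) : (Θ → V) →ₗ[F] V :=
  ∑ θ, LinearMap.proj θ

theorem tot_apply (Θ : Finset G) (f : Θ → V) : tot F V Θ f = ∑ θ, f θ := by
  simp [tot, LinearMap.sum_apply]

theorem prj_cst (Θ : Finset G) (g : G) (f : Θ → V) :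
    prj F V Θ g (cst F V Θ (tot F V Θ (prj F V Θ g f))) = prj F V Θ g f := by
  ext θ
  rw [prj_apply, prj_apply]
  split_ifs with h
  · change tot F V Θ (prj F V Θ g f) = f θ
    rw [tot_apply, Finset.sum_eq_single_of_mem θ (Finset.mem_univ _), prj_apply, if_pos h]
    intro θ' _ h'
    rw [prj_apply, if_neg fun e => h' (Subtype.ext (e.trans h.symm))]
  · rfl

theorem cst_hom (hP : Graded P deg) (M : Obj P V) (Θ : Finset G) :
    M.IsHom (big hP M Θ) (cst F V Θ) :=
  ⟨fun _ => rfl, fun u hu _ _ => ⟨u, hu, fun _ _ _ _ => rfl⟩⟩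

theorem tot_mem (hP : Graded P deg) (M : Obj P V) {Θ D : Finset G}
    (hΘ : ∀ d ∈ D, ∀ p p', d * (deg p)⁻¹ * deg p' ∈ Θ) {w : Pt → Θ → V} (hw : w ∈ (big hP M Θ).U)
    (hD : ∀ p (θ : Θ), θ.1 ∉ D → w p θ = 0) : (fun p => tot F V Θ (w p)) ∈ M.U := by
  classical
  choose uu hU huu using (mem_big hP M Θ w).1 hw
  let S : Finset (ι × G) :=
    (D ×ˢ (Finset.univ : Finset Pt)).image fun a => (P.vt a.2, a.1 * (deg a.2)⁻¹)
  have : (fun p => tot F V Θ (w p)) = ∑ a ∈ S, act (P.e a.1) (uu a.1 a.2) := by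
    ext p
    rw [Finset.sum_apply, tot_apply]
    simp only [act_e]
    rw [← Finset.sum_filter]
    symm
    refine Finset.sum_bij_ne_zero (fun a ha _ => ⟨a.2 * deg p, ?_⟩) (fun _ _ _ => Finset.mem_univ _)
      ?_ ?_ ?_
    · obtain ⟨a', ha', rfl⟩ := Finset.mem_image.1 (Finset.mem_filter.1 ha).1
      exact hΘ _ (Finset.mem_product.1 ha').1 _ _
    · intro a ha _ a' ha' _ h
      exact Prod.ext ((Finset.mem_filter.1 ha).2.symm.trans (Finset.mem_filter.1 ha').2)
        (mul_right_cancel (congrArg Subtype.val h))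
    · intro θ _ hθ
      have hθD : θ.1 ∈ D := by_contra fun h => hθ (hD p θ h)
      refine ⟨(P.vt p, θ.1 * (deg p)⁻¹), Finset.mem_filter.2 ⟨Finset.mem_image.2
        ⟨(θ.1, p), Finset.mem_product.2 ⟨hθD, Finset.mem_univ _⟩, rfl⟩, rfl⟩, ?_,
        Subtype.ext (by simp)⟩
      rwa [← huu _ _ p θ rfl (by simp)]
    · intro a ha _
      exact (huu a.1 a.2 p _ (Finset.mem_filter.1 ha).2 rfl).symm
  rw [this]
  exact sum_mem fun a _ => M.stab _ (P.e_mem a.1) _ (hU _ _)

end Gr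

end DlA

open DlA in
theorem dl (h1 : SKS1) (h2 : SKS2) : SDL := by
  intro k F _ _ _ _ Pt ι Ω _ _ _ P G _ deg htf hP D hD V _ _ _ M hM
  classical
  let Θ : Finset G := insert 1 ((D ×ˢ (Finset.univ : Finset (Pt × Pt))).image
    fun a => a.1 * (deg a.2.1)⁻¹ * deg a.2.2)
  have h1Θ : (1 : G) ∈ Θ := Finset.mem_insert_self _ _
  let Γ := bigG hP M Θ
  obtain ⟨n, e, he, h0, hee, -, hsum, hp⟩ := h1 F (Θ → V) (GR Γ)
  obtain ⟨s, hs⟩ : ∃ s, Γ.π 1 * e s ≠ 0 := by
    by_contra h
    push Not at h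
    have := hM.1
    obtain ⟨v, hv⟩ := exists_ne (0 : V)
    have h3 : Γ.π 1 = 0 := by
      rw [← mul_one (Γ.π 1), ← hsum, Finset.mul_sum]
      exact Finset.sum_eq_zero fun s _ => h s
    have h4 : prj F V Θ 1 (fun _ => v) ⟨1, h1Θ⟩ = 0 := by
      change Γ.π 1 (fun _ => v) ⟨1, h1Θ⟩ = 0
      rw [h3]
      rfl
    rw [prj_apply, if_pos rfl] at h4
    exact hv h4
  have hI := smdG_indec Γ (he s) (h0 s) (hee s) (hp s)
  have hπ1 : (smdG Γ (he s)).π 1 ≠ 0 := fun h => hs (LinearMap.ext fun v =>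
    congrArg Subtype.val (LinearMap.congr_fun h ((e s).rangeRestrict v)))
  have ha := hom_comp (hom_rr (he s).1) (cst_hom hP M Θ)
  have hb : ((big hP M Θ).smd (e s) (he s).1).IsHom M
      (tot F V Θ ∘ₗ (LinearMap.range (e s)).subtype) := by
    refine ⟨fun o => LinearMap.ext fun y => ?_, fun u hu => tot_mem hP M (D := D) ?_ hu ?_⟩
    · change tot F V Θ (fun θ => M.ε o (y.1 θ)) = M.ε o (tot F V Θ y.1)
      rw [tot_apply, tot_apply, map_sum]
    · intro d hd p p'
      exact Finset.mem_insert_of_mem (Finset.mem_image.2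
        ⟨(d, p, p'), Finset.mem_product.2 ⟨hd, Finset.mem_univ _⟩, rfl⟩)
    · intro p θ hθ
      have h3 : (smdG Γ (he s)).π θ.1 = 0 := by_contra fun h =>
        hθ (by simpa using hD _ _ _ hI 1 θ.1 hπ1 h)
      have h4 : prj F V Θ θ.1 (u p).1 θ = 0 :=
        congrFun (congrArg Subtype.val (LinearMap.congr_fun h3 (u p))) θ
      rwa [prj_apply, if_pos rfl] at h4
  obtain ⟨c, hc, hxc, -⟩ := inv_of_cmp h2 htf _ hI (hom_comp ha hb) (by
    rw [← pi_sum (smdG Γ (he s)), DlA.cmp]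
    refine Finset.sum_congr rfl fun g hg => LinearMap.ext fun y => ?_
    rw [one_mul]
    refine Subtype.ext ?_
    have c1 : ∀ f, e s (prj F V Θ g f) = prj F V Θ g (e s f) := fun f =>
      LinearMap.congr_fun ((he s).2 g) f
    change prj F V Θ g (e s (cst F V Θ (tot F V Θ (prj F V Θ g y.1)))) = prj F V Θ g y.1
    rw [← c1, prj_cst, c1]
    exact congrArg (fun z : LinearMap.range (e s) => prj F V Θ g z.1) (rr_coe (hee s) y))
  have := hI.1
  exact transport hM (smdG Γ (he s)) ha (hom_comp hb hc) hxc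

end Pool.Agent.MP_bd94e8_al.H89
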